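import Mathlib

/-! Sums of `m`-th powers of `C(r/m, k)` modulo `p³`: the algebra. -/

set_option autoImplicit false

namespace Pool.Agent.Q278.RM

open Finset Polynomial

/-- alternating sum against a polynomial of small degree -/
lemma alt_sum {R : Type*} [CommRing R] (P : R[X]) (N : ℕ) (hP : P.natDegree < N) :
    ∑ k ∈ range (N + 1), (-1 : R) ^ k * (N.choose k : R) * P.eval (k : R) = 0 := by
  have h := congrFun (Polynomial.fwdDiff_iter_eq_zero_of_degree_lt hP) 0
  rw [fwdDiff_iter_eq_sum_shift] at h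
  have h2 := congrArg (fun x => (-1 : R) ^ N * x) h
  simp only [Pi.zero_apply, mul_zero] at h2
  rw [← h2, mul_sum]
  refine sum_congr rfl fun k hk => ?_
  rw [mem_range, Nat.lt_succ_iff] at hk
  rw [zero_add, nsmul_one, zsmul_eq_mul]
  push_cast
  have : (-1 : R) ^ k = (-1) ^ N * (-1) ^ (N - k) := by
    rw [← pow_add, show N + (N - k) = 2 * (N - k) + k by omega, pow_add, pow_mul]
    simp
  rw [this]
  ring

lemma one_sub_pow {R : Type*} [CommRing R] (x : R) (hx : x ^ 3 = 0) (m : ℕ) :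
    (1 - x) ^ m = 1 - m * x + (m.choose 2 : R) * x ^ 2 := by
  induction m with
  | zero => simp
  | succ m ih =>
    have h : ((m + 1).choose 2 : R) = m + (m.choose 2 : R) := by
      rw [Nat.choose_succ_succ' m 1, Nat.choose_one_right]
      push_cast; ring
    rw [pow_succ, ih, h]
    push_cast
    linear_combination -(m.choose 2 : R) * hx

section ring

variable {R : Type*} [CommRing R] (p : ℕ) (iv : ℕ → R) (hiv : ∀ j, 1 ≤ j → j < p → (j : R) * iv j = 1)

/-- alternating binomials -/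
lemma choose_step (hiv : ∀ j, 1 ≤ j → j < p → (j : R) * iv j = 1) (k : ℕ) (hk : k + 1 < p) :
    (-1 : R) ^ (k + 1) * ((p - 1).choose (k + 1) : R) =
    (-1) ^ k * ((p - 1).choose k : R) * (1 - p * iv (k + 1)) := by
  have h := Nat.choose_succ_right_eq (p - 1) k
  have h1 := congrArg (Nat.cast : ℕ → R) h
  rw [Nat.cast_mul, Nat.cast_mul, Nat.cast_sub (by omega), Nat.cast_sub (by omega)] at h1
  have h2 := hiv (k + 1) (by omega) hk
  push_cast at h1 h2
  linear_combination -(-1 : R) ^ k * iv (k + 1) * h1 + (-1 : R) ^ k * ((p - 1).choose (k + 1) : R) * h2 +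
    (-1 : R) ^ k * ((p - 1).choose k : R) * h2

/-- `∏ (1 - t/j)` -/
def pr (t : R) (k : ℕ) : R := ∏ j ∈ range k, (1 - t * iv (j + 1))

/-- `∑ 1/j²` -/
def hh (k : ℕ) : R := ∑ j ∈ range k, iv (j + 1) ^ 2

lemma pr_pow (hiv : ∀ j, 1 ≤ j → j < p → (j : R) * iv j = 1) (m : ℕ) (mi : R) (hmi : (m : R) * mi = 1)
    (hP : (p : R) ^ 3 = 0) (k : ℕ) (hk : k < p) :
    pr iv ((p : R) * mi) k ^ m = (-1) ^ k * ((p - 1).choose k : R) *
      (1 + (m.choose 2 : R) * mi ^ 2 * (p : R) ^ 2 * hh iv k) := by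
  induction k with
  | zero => simp [pr, hh]
  | succ k ih =>
    rw [pr, prod_range_succ, mul_pow]
    have ih' := ih (by omega)
    rw [pr] at ih'
    rw [ih', one_sub_pow _ (by rw [mul_pow, mul_pow, hP]; ring), choose_step p iv hiv k hk]
    have hh1 : hh iv (k + 1) = hh iv k + iv (k + 1) ^ 2 := by
      unfold hh; rw [sum_range_succ]
    rw [hh1]
    generalize (-1 : R) ^ k * ((p - 1).choose k : R) = A
    generalize (m.choose 2 : R) = c
    generalize hh iv k = H
    generalize iv (k + 1) = v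
    linear_combination (-(A * (1 + c * mi ^ 2 * (p : R) ^ 2 * H) * (p : R) * v)) * hmi +
      (A * (c * mi ^ 2 * v ^ 3 + c ^ 2 * mi ^ 4 * H * p * v ^ 2)) * hP

/-- `∏_{i=1}^{d} (k + i - t)` -/
def G (d : ℕ) (t : R) (k : ℕ) : R := ∏ i ∈ range d, ((k : R) + ((i : R) + 1) - t)

lemma G_step (d : ℕ) (t : R) (k : ℕ) : G d t k * ((k : R) + (d + 1) - t) =
    G d t (k + 1) * ((k : R) + 1 - t) := by
  unfold G
  have h1 := prod_range_succ (fun i : ℕ => (k : R) + ((i : R) + 1) - t) d
  have h2 := prod_range_succ' (fun i : ℕ => (k : R) + ((i : R) + 1) - t) d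
  rw [← h1, h2]
  push_cast
  congr 1
  · refine prod_congr rfl fun i _ => ?_
    ring
  · ring

/-- the terms -/
def al (d : ℕ) (t : R) (k : ℕ) : R := ∏ j ∈ range k, (((j : R) + (d + 1) - t) * iv (j + 1))

lemma al_eq (hiv : ∀ j, 1 ≤ j → j < p → (j : R) * iv j = 1) (d : ℕ) (t : R) (k : ℕ) (hk : k < p) :
    G d t 0 * al iv d t k = G d t k * pr iv t k := by
  induction k with
  | zero => simp [al, pr]
  | succ k ih =>
    have ih' := ih (by omega)
    unfold al pr at *
    rw [prod_range_succ, prod_range_succ]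
    have h := hiv (k + 1) (by omega) hk
    push_cast at h
    have h2 := G_step d t k
    generalize ∏ j ∈ range k, (((j : R) + (d + 1) - t) * iv (j + 1)) = A at *
    generalize ∏ j ∈ range k, (1 - t * iv (j + 1)) = B at *
    linear_combination ((k : R) + (d + 1) - t) * iv (k + 1) * ih' + B * iv (k + 1) * h2 +
      B * G d t (k + 1) * h

/-- polynomial version of `G ^ m` -/
lemma G_poly (d m : ℕ) (t : R) : ∃ P : R[X], P.natDegree ≤ m * d ∧ ∀ k : ℕ, P.eval (k : R) = G d t k ^ m := by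
  refine ⟨(∏ i ∈ range d, (X + C ((i : R) + 1 - t))) ^ m, ?_, fun k => ?_⟩
  · refine le_trans natDegree_pow_le ?_
    refine Nat.mul_le_mul_left m ?_
    refine le_trans (natDegree_prod_le _ _) ?_
    refine le_trans (sum_le_sum (fun i _ => natDegree_add_C.le.trans natDegree_X_le)) ?_
    simp
  · rw [eval_pow, eval_prod]
    unfold G
    congr 1
    refine prod_congr rfl fun i _ => ?_
    rw [eval_add, eval_X, eval_C]
    ring

/-- the main computation -/
lemma main_sum (hp : 1 ≤ p) (hiv : ∀ j, 1 ≤ j → j < p → (j : R) * iv j = 1) (m : ℕ) (mi : R)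
    (hmi : (m : R) * mi = 1)
    (hP : (p : R) ^ 3 = 0) (d : ℕ) (hd : m * d < p - 1) :
    (G d ((p : R) * mi) 0) ^ m * ∑ k ∈ range p, al iv d ((p : R) * mi) k ^ m =
      (m.choose 2 : R) * mi ^ 2 * (p : R) ^ 2 *
        ∑ k ∈ range p, (-1) ^ k * ((p - 1).choose k : R) * G d ((p : R) * mi) k ^ m * hh iv k := by
  obtain ⟨P, hP1, hP2⟩ := G_poly d m ((p : R) * mi)
  have h0 := alt_sum P (p - 1) (lt_of_le_of_lt hP1 hd)
  rw [Nat.sub_add_cancel hp] at h0
  rw [mul_sum, mul_sum]
  rw [← sub_eq_zero, ← sum_sub_distrib, ← h0]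
  refine sum_congr rfl fun k hk => ?_
  rw [mem_range] at hk
  rw [← mul_pow, al_eq p iv hiv d _ k hk, mul_pow, pr_pow p iv hiv m mi hmi hP k hk, hP2]
  ring

end ring

end Pool.Agent.Q278.RM
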