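import Mathlib
import Pool.Agent.Q278.RM.Basic

/-! The sum modulo `p`. -/

set_option autoImplicit false

namespace Pool.Agent.Q278.RM

open Finset Polynomial

variable (p : ℕ) [hp : Fact p.Prime]

/-- `(-1)^k C(p-1,k) = 1` -/
lemma choose_one (k : ℕ) (hk : k < p) : (-1 : ZMod p) ^ k * ((p - 1).choose k : ZMod p) = 1 := by
  induction k with
  | zero => simp
  | succ k ih =>
    have hiv : ∀ j, 1 ≤ j → j < p → (j : ZMod p) * (j : ZMod p)⁻¹ = 1 := by
      intro j h1 h2
      apply mul_inv_cancel₀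
      intro h
      rw [ZMod.natCast_eq_zero_iff] at h
      exact absurd (Nat.le_of_dvd h1 h) (by omega)
    rw [choose_step p (fun j => (j : ZMod p)⁻¹) hiv k hk, ih (by omega)]
    simp

lemma poly_sum (P : (ZMod p)[X]) (hP : P.natDegree < p - 1) : ∑ k ∈ range p, P.eval (k : ZMod p) = 0 := by
  have h := alt_sum P (p - 1) hP
  rw [Nat.sub_add_cancel hp.out.one_lt.le] at h
  rw [← h]
  refine sum_congr rfl fun k hk => ?_
  rw [mem_range] at hk
  rw [choose_one p k hk, one_mul]

/-- `f(k) = ∏_{i=1}^d (k+i)^m` -/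
def f (d m k : ℕ) : ZMod p := (∏ i ∈ range d, ((k : ZMod p) + ((i : ZMod p) + 1))) ^ m

/-- harmonic sums of order two -/
def H (k : ℕ) : ZMod p := ∑ j ∈ range k, ((((j + 1 : ℕ) : ZMod p))⁻¹) ^ 2

lemma f_zero (d m k : ℕ) (hm : m ≠ 0) (hk : k < p) (hd : p ≤ k + d) : f p d m k = 0 := by
  unfold f
  rw [prod_eq_zero (i := p - 1 - k), zero_pow hm]
  · rw [mem_range]; omega
  · have : ((k + (p - 1 - k + 1) : ℕ) : ZMod p) = ((p : ℕ) : ZMod p) := by
      congr 1; omega
    push_cast at this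
    rw [this]; simp

lemma f_refl (d m k : ℕ) (hev : Even (m * d)) (hk : k + d < p) : f p d m (p - d - 1 - k) = f p d m k := by
  unfold f
  have h1 : ∏ i ∈ range d, (((p - d - 1 - k : ℕ) : ZMod p) + ((i : ZMod p) + 1)) =
      (-1) ^ d * ∏ i ∈ range d, ((k : ZMod p) + ((i : ZMod p) + 1)) := by
    rw [← prod_range_reflect, ← card_range d, ← prod_const, card_range, ← prod_mul_distrib]
    refine prod_congr rfl fun i hi => ?_
    rw [mem_range] at hi
    rw [Nat.cast_sub (by omega), Nat.cast_sub (by omega), Nat.cast_sub (by omega),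
      Nat.cast_sub (by omega), Nat.cast_sub (by omega)]
    simp
    ring
  rw [h1, mul_pow, ← pow_mul, mul_comm d m, hev.neg_one_pow, one_mul]

lemma H_refl (j : ℕ) (hj : j < p) : H p (p - 1 - j) = H p (p - 1) - H p j := by
  unfold H
  have h1 : p - 1 = (p - 1 - j) + j := by omega
  rw [eq_sub_iff_add_eq]
  conv_rhs => rw [h1, sum_range_add]
  congr 1
  rw [← sum_range_reflect]
  refine sum_congr rfl fun i hi => ?_
  rw [mem_range] at hi
  have h2 : ((p - 1 - j + i + 1 : ℕ) : ZMod p) = -((j - 1 - i + 1 : ℕ) : ZMod p) := by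
    rw [eq_neg_iff_add_eq_zero, ← Nat.cast_add]
    have : p - 1 - j + i + 1 + (j - 1 - i + 1) = p := by omega
    rw [this]; simp
  rw [h2, inv_neg, neg_sq]

lemma H_add (k d : ℕ) : H p (k + d) = H p k + ∑ i ∈ range d, ((((k + i + 1 : ℕ) : ZMod p))⁻¹) ^ 2 := by
  unfold H
  rw [sum_range_add]

lemma f_poly (d m : ℕ) : ∃ P : (ZMod p)[X], P.natDegree ≤ m * d ∧ ∀ k : ℕ, P.eval (k : ZMod p) = f p d m k := by
  obtain ⟨P, h1, h2⟩ := G_poly (R := ZMod p) d m 0
  refine ⟨P, h1, fun k => ?_⟩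
  rw [h2]
  unfold G f
  simp

lemma f_inv_poly (d m : ℕ) (hm : 3 ≤ m) (i : ℕ) (hi : i < d) : ∃ P : (ZMod p)[X], P.natDegree ≤ m * d ∧
    ∀ k : ℕ, P.eval (k : ZMod p) = f p d m k * ((((k + i + 1 : ℕ) : ZMod p))⁻¹) ^ 2 := by
  obtain ⟨e, rfl⟩ : ∃ e, m = e + 1 + 2 := ⟨m - 3, by omega⟩
  refine ⟨(∏ j ∈ (range d).erase i, (X + C ((j : ZMod p) + 1))) ^ (e + 1 + 2) *
    (X + C ((i : ZMod p) + 1)) ^ (e + 1), ?_, fun k => ?_⟩
  · refine le_trans natDegree_mul_le ?_
    refine le_trans (add_le_add (natDegree_pow_le_of_le (m := d - 1) _ ?_)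
      (natDegree_pow_le_of_le (m := 1) _ (natDegree_add_C.le.trans natDegree_X_le))) ?_
    · refine le_trans (natDegree_prod_le _ _) ?_
      refine le_trans (sum_le_sum (fun i _ => natDegree_add_C.le.trans natDegree_X_le)) ?_
      rw [sum_const, card_erase_of_mem (mem_range.mpr hi), card_range]
      simp
    · obtain ⟨d', rfl⟩ : ∃ d', d = d' + 1 := ⟨d - 1, by omega⟩
      rw [Nat.add_sub_cancel]
      nlinarith
  · rw [eval_mul, eval_pow, eval_pow, eval_prod]
    simp only [eval_add, eval_X, eval_C]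
    unfold f
    rw [← mul_prod_erase (range d) _ (mem_range.mpr hi)]
    push_cast
    have : (k : ZMod p) + i + 1 = k + (i + 1) := by ring
    rw [this]
    generalize (k : ZMod p) + (i + 1) = x
    generalize ∏ j ∈ (range d).erase i, ((k : ZMod p) + (j + 1)) = y
    rcases eq_or_ne x 0 with rfl | hx
    · simp
    · rw [mul_pow, pow_add x (e + 1) 2]
      field_simp

/-- the sum is zero modulo `p` -/
lemma T_zero (h2p : 2 < p) (d m : ℕ) (hm : 3 ≤ m) (hd : m * d < p - 1) (hev : Even (m * d)) :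
    ∑ k ∈ range p, f p d m k * H p k = 0 := by
  have hdp : d < p := by
    have := Nat.le_mul_of_pos_left d (show 0 < m by omega)
    omega
  -- restrict to k < p - d
  have cut : ∀ g : ℕ → ZMod p, ∑ k ∈ range p, f p d m k * g k = ∑ k ∈ range (p - d), f p d m k * g k := by
    intro g
    symm
    apply sum_subset
    · intro k hk
      rw [mem_range] at *
      omega
    · intro k hk hk'
      rw [mem_range] at hk hk'
      rw [f_zero p d m k (by omega) hk (by omega), zero_mul]
  have hF : ∑ k ∈ range (p - d), f p d m k = 0 := by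
    have h := cut (fun _ => 1)
    simp only [mul_one] at h
    rw [← h]
    obtain ⟨P, hP1, hP2⟩ := f_poly p d m
    rw [← poly_sum p P (lt_of_le_of_lt hP1 hd)]
    exact sum_congr rfl fun k _ => (hP2 k).symm
  have hFi : ∀ i < d, ∑ k ∈ range (p - d), f p d m k * ((((k + i + 1 : ℕ) : ZMod p))⁻¹) ^ 2 = 0 := by
    intro i hi
    rw [← cut]
    obtain ⟨P, hP1, hP2⟩ := f_inv_poly p d m hm i hi
    rw [← poly_sum p P (lt_of_le_of_lt hP1 hd)]
    exact sum_congr rfl fun k _ => (hP2 k).symm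
  have h1 : ∑ k ∈ range (p - d), f p d m k * H p k = ∑ k ∈ range (p - d),
      (H p (p - 1) * f p d m k - f p d m k * H p k -
        ∑ i ∈ range d, f p d m k * ((((k + i + 1 : ℕ) : ZMod p))⁻¹) ^ 2) := by
    rw [← sum_range_reflect]
    refine sum_congr rfl fun k hk => ?_
    rw [mem_range] at hk
    rw [f_refl p d m k hev (by omega)]
    have : p - d - 1 - k = p - 1 - (k + d) := by omega
    rw [this, H_refl p (k + d) (by omega), H_add, ← mul_sum]
    ring
  rw [sum_sub_distrib, sum_sub_distrib, ← mul_sum, hF, sum_comm, sum_eq_zero (fun i hi =>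
    hFi i (mem_range.mp hi)), mul_zero, zero_sub, sub_zero] at h1
  rw [cut]
  have h2 : (2 : ZMod p) ≠ 0 := by
    intro h
    have : ((2 : ℕ) : ZMod p) = 0 := by exact_mod_cast h
    rw [ZMod.natCast_eq_zero_iff] at this
    exact absurd (Nat.le_of_dvd (by norm_num) this) (by omega)
  have h3 : (2 : ZMod p) * ∑ k ∈ range (p - d), f p d m k * H p k = 0 := by
    linear_combination h1
  exact (mul_eq_zero.mp h3).resolve_left h2

end Pool.Agent.Q278.RM
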