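import Mathlib
import Pool.Agent.Q278.RM.Tee

/-! From `ZMod (p^3)` to rational numbers. -/

set_option autoImplicit false

namespace Pool.Agent.Q278.RM

open Finset Polynomial

variable (p : ℕ) [hp : Fact p.Prime]

/-- reduction -/
noncomputable def psi : ZMod (p ^ 3) →+* ZMod p := ZMod.castHom (dvd_pow_self p (by norm_num)) (ZMod p)

lemma psi_zero (E : ZMod (p ^ 3)) (h : psi p E = 0) : (p : ZMod (p ^ 3)) ^ 2 * E = 0 := by
  have : NeZero (p ^ 3) := ⟨pow_ne_zero 3 hp.out.ne_zero⟩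
  have hE : (E.val : ZMod (p ^ 3)) = E := ZMod.natCast_zmod_val E
  rw [← hE, map_natCast, ZMod.natCast_eq_zero_iff] at h
  obtain ⟨q, hq⟩ := h
  rw [← hE, hq]
  have : ((p ^ 3 : ℕ) : ZMod (p ^ 3)) = 0 := ZMod.natCast_self _
  push_cast at this ⊢
  linear_combination (q : ZMod (p ^ 3)) * this

lemma p_cube : (p : ZMod (p ^ 3)) ^ 3 = 0 := by
  have : ((p ^ 3 : ℕ) : ZMod (p ^ 3)) = 0 := ZMod.natCast_self _
  push_cast at this
  exact this

/-- inverses -/
def iv (j : ℕ) : ZMod (p ^ 3) := (j : ZMod (p ^ 3))⁻¹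

lemma iv_mul' (j : ℕ) (h : ¬ p ∣ j) : (j : ZMod (p ^ 3)) * iv p j = 1 := by
  apply ZMod.coe_mul_inv_eq_one
  exact Nat.Coprime.pow_right 3 ((Nat.Prime.coprime_iff_not_dvd hp.out).mpr h).symm

lemma iv_mul (j : ℕ) (h1 : 1 ≤ j) (h2 : j < p) : (j : ZMod (p ^ 3)) * iv p j = 1 :=
  iv_mul' p j (fun h => absurd (Nat.le_of_dvd h1 h) (by omega))

lemma psi_iv (j : ℕ) (h1 : 1 ≤ j) (h2 : j < p) : psi p (iv p j) = ((j : ZMod p))⁻¹ := by
  have h := congrArg (psi p) (iv_mul p j h1 h2)
  rw [map_mul, map_natCast, map_one] at h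
  exact eq_inv_of_mul_eq_one_right h

/-- the sum in `ZMod (p^3)` -/
lemma sum_zero (h2p : 2 < p) (m : ℕ) (hm : 3 ≤ m) (hpm : ¬ p ∣ m) (d : ℕ) (hd : m * d < p - 1)
    (hev : Even (m * d)) : ∑ k ∈ range p, al (iv p) d ((p : ZMod (p ^ 3)) * iv p m) k ^ m = 0 := by
  have hdp : d < p := by
    have := Nat.le_mul_of_pos_left d (show 0 < m by omega)
    omega
  have h := main_sum p (iv p) hp.out.one_lt.le (iv_mul p) m (iv p m) (iv_mul' p m hpm) (p_cube p) d hd
  have hE : psi p (∑ k ∈ range p, (-1) ^ k * ((p - 1).choose k : ZMod (p ^ 3)) *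
      G d ((p : ZMod (p ^ 3)) * iv p m) k ^ m * hh (iv p) k) = 0 := by
    rw [map_sum, ← T_zero p h2p d m hm hd hev]
    refine sum_congr rfl fun k hk => ?_
    rw [mem_range] at hk
    rw [map_mul, map_mul, map_mul, map_pow, map_neg, map_one, map_natCast, choose_one p k hk, one_mul,
      map_pow]
    congr 1
    · unfold f G
      rw [map_prod]
      congr 1
      refine prod_congr rfl fun i _ => ?_
      rw [map_sub, map_add, map_add, map_mul, map_natCast, map_natCast, map_natCast, map_one]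
      simp
    · unfold hh H
      rw [map_sum]
      refine sum_congr rfl fun j hj => ?_
      rw [mem_range] at hj
      rw [map_pow, psi_iv p _ (by omega) (by omega)]
  have h1 := psi_zero p _ hE
  have h2 : G d ((p : ZMod (p ^ 3)) * iv p m) 0 ^ m *
      ∑ k ∈ range p, al (iv p) d ((p : ZMod (p ^ 3)) * iv p m) k ^ m = 0 := by
    rw [h]
    linear_combination ((m.choose 2 : ZMod (p ^ 3)) * iv p m ^ 2) * h1
  have hu : IsUnit (G d ((p : ZMod (p ^ 3)) * iv p m) 0) := by
    unfold G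
    rw [IsUnit.prod_iff]
    intro i hi
    rw [mem_range] at hi
    have h3 := iv_mul p (i + 1) (by omega) (by omega)
    have h4 := p_cube p
    push_cast at h3
    apply IsUnit.of_mul_eq_one ((((i : ZMod (p ^ 3)) + 1) ^ 2 + ((i : ZMod (p ^ 3)) + 1) * ((p : ZMod (p ^ 3)) * iv p m) +
      ((p : ZMod (p ^ 3)) * iv p m) ^ 2) * iv p (i + 1) ^ 3)
    generalize iv p (i + 1) = v at *
    generalize iv p m = w at *
    push_cast
    generalize (i : ZMod (p ^ 3)) + 1 = x at *
    generalize (p : ZMod (p ^ 3)) = P at *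
    have h5 : x ^ 3 * v ^ 3 = 1 := by rw [← mul_pow, h3, one_pow]
    linear_combination h5 - w ^ 3 * v ^ 3 * h4
  exact (hu.pow m).mul_right_eq_zero.mp h2

lemma e_al (m : ℕ) (hpm : ¬ p ∣ m) (r : ℤ) (d : ℕ)
    (hr : (r : ZMod (p ^ 3)) = (p : ZMod (p ^ 3)) - m * (d + 1)) (k : ℕ) (hk : k < p) :
    (-1 : ZMod (p ^ 3)) ^ k * ∏ j ∈ range k, ((r : ZMod (p ^ 3)) - j * m) =
      (m : ZMod (p ^ 3)) ^ k * (k.factorial : ZMod (p ^ 3)) * al (iv p) d ((p : ZMod (p ^ 3)) * iv p m) k := by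
  induction k with
  | zero => simp [al]
  | succ k ih =>
    have ih' := ih (by omega)
    unfold al at *
    rw [prod_range_succ, prod_range_succ, Nat.factorial_succ]
    have h1 := iv_mul p (k + 1) (by omega) (by omega)
    have h2 := iv_mul' p m hpm
    push_cast at h1 ⊢
    rw [hr] at *
    generalize ∏ j ∈ range k, (((j : ZMod (p ^ 3)) + (d + 1) - (p : ZMod (p ^ 3)) * iv p m) * iv p (j + 1)) = A at *
    generalize ∏ j ∈ range k, ((p : ZMod (p ^ 3)) - m * (d + 1) - j * m) = B at *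
    generalize iv p (k + 1) = v at *
    generalize iv p m = w at *
    generalize (k.factorial : ZMod (p ^ 3)) = g at *
    generalize (p : ZMod (p ^ 3)) = P at *
    generalize (m : ZMod (p ^ 3)) = M at *
    linear_combination (M * (d + 1) + k * M - P) * ih' - (M ^ k * g * A * (M * (d + 1) + k * M - P * M * w)) * h1 +
      (M ^ k * g * A * P) * h2

/-- `C(x, k)` -/
def binom (x : ℚ) (k : ℕ) : ℚ := (∏ j ∈ range k, (x - j)) / k.factorial

/-- final statement -/
theorem final (m : ℕ) (r : ℤ) (h2p : 2 < p) (hm : 2 < m) (hpm : ¬ p ∣ m) (hpr : r < p)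
    (hpar : Odd ((m : ℤ) + r)) (hmod : (p : ℤ) ≡ r [ZMOD m]) (hr : -(m : ℚ) / 2 ≤ r) :
    ∃ u v : ℤ, ¬ (p : ℤ) ∣ v ∧
      (∑ k ∈ range p, (-1 : ℚ) ^ (k * m) * binom ((r : ℚ) / m) k ^ m) * v = (p : ℚ) ^ 3 * u := by
  obtain ⟨n, hn⟩ : (m : ℤ) ∣ p - r := hmod.symm.dvd
  have hn1 : 1 ≤ n := by
    by_contra hcon
    have : n ≤ 0 := by omega
    have : (m : ℤ) * n ≤ 0 := mul_nonpos_of_nonneg_of_nonpos (by positivity) this
    omega
  obtain ⟨d, rfl⟩ : ∃ d : ℕ, n = d + 1 := ⟨(n - 1).toNat, by omega⟩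
  have hr2 : -(m : ℤ) ≤ 2 * r := by
    have : -(m : ℚ) ≤ 2 * r := by linarith
    exact_mod_cast this
  have hmd : ((m * d : ℕ) : ℤ) = p - r - m := by push_cast; linear_combination -hn
  have hd : m * d < p - 1 := by omega
  have hev : Even (m * d) := by
    have hpo : Odd (p : ℤ) := by
      exact_mod_cast hp.out.odd_of_ne_two (by omega)
    have : Even ((m * d : ℕ) : ℤ) := by
      rw [hmd, show (p : ℤ) - r - m = p - (m + r) by ring]
      exact hpo.sub_odd hpar
    exact_mod_cast this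
  have hmain := sum_zero p h2p m hm hpm d hd hev
  have hrR : (r : ZMod (p ^ 3)) = (p : ZMod (p ^ 3)) - m * (d + 1) := by
    have : r = (p : ℤ) - m * (d + 1) := by linear_combination -hn
    rw [this]
    push_cast
    rfl
  -- integers
  set e : ℕ → ℤ := fun k => ∏ j ∈ range k, (r - j * m) with he
  set K : ℕ → ℕ := fun k => m ^ (p - 1 - k) * (k + 1).ascFactorial (p - 1 - k) with hK
  set V : ℕ := m ^ (p - 1) * (p - 1).factorial with hV
  have hKV : ∀ k < p, K k * (m ^ k * k.factorial) = V := by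
    intro k hk
    have h1 := Nat.factorial_mul_ascFactorial k (p - 1 - k)
    rw [show k + (p - 1 - k) = p - 1 by omega] at h1
    simp only [hK, hV]
    rw [← h1]
    calc m ^ (p - 1 - k) * (k + 1).ascFactorial (p - 1 - k) * (m ^ k * k.factorial) =
        m ^ (p - 1 - k + k) * (k.factorial * (k + 1).ascFactorial (p - 1 - k)) := by rw [pow_add]; ring
      _ = _ := by rw [show p - 1 - k + k = p - 1 by omega]
  have hm0 : (m : ℚ) ≠ 0 := by
    have : m ≠ 0 := by omega
    exact_mod_cast this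
  have hbin : ∀ k < p, binom ((r : ℚ) / m) k * V = ((e k * K k : ℤ) : ℚ) := by
    intro k hk
    rw [← hKV k hk]
    unfold binom
    have h1 : (e k : ℚ) = (∏ j ∈ range k, ((r : ℚ) / m - j)) * m ^ k := by
      simp only [he]
      push_cast
      rw [← card_range k, ← prod_const, card_range, ← prod_mul_distrib]
      refine prod_congr rfl fun j _ => ?_
      field_simp
    push_cast
    rw [h1]
    have : (k.factorial : ℚ) ≠ 0 := by exact_mod_cast k.factorial_ne_zero
    field_simp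
  have hVp : ¬ p ∣ V := by
    rw [hV, hp.out.dvd_mul, not_or]
    refine ⟨fun h => hpm (hp.out.dvd_of_dvd_pow h), fun h => ?_⟩
    rw [hp.out.dvd_factorial] at h
    omega
  set N : ℤ := ∑ k ∈ range p, (-1) ^ (k * m) * (e k * K k) ^ m with hN
  have hSN : (∑ k ∈ range p, (-1 : ℚ) ^ (k * m) * binom ((r : ℚ) / m) k ^ m) * (V : ℚ) ^ m = N := by
    rw [hN, sum_mul]
    push_cast
    refine sum_congr rfl fun k hk => ?_
    rw [mem_range] at hk
    have := hbin k hk
    push_cast at this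
    rw [mul_assoc, ← mul_pow, this]
  have hN0 : (N : ZMod (p ^ 3)) = 0 := by
    have h1 : (N : ZMod (p ^ 3)) = (V : ZMod (p ^ 3)) ^ m *
        ∑ k ∈ range p, al (iv p) d ((p : ZMod (p ^ 3)) * iv p m) k ^ m := by
      rw [hN, mul_sum]
      push_cast
      refine sum_congr rfl fun k hk => ?_
      rw [mem_range] at hk
      rw [pow_mul, ← mul_pow, ← mul_pow]
      congr 1
      rw [← hKV k hk]
      have h2 := e_al p m hpm r d hrR k hk
      simp only [he]
      push_cast
      rw [mul_left_comm, mul_comm, mul_right_comm, h2]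
      ring
    rw [h1, hmain, mul_zero]
  rw [ZMod.intCast_zmod_eq_zero_iff_dvd] at hN0
  obtain ⟨u, hu⟩ := hN0
  refine ⟨u, (V : ℤ) ^ m, ?_, ?_⟩
  · intro h
    have h2 : (p : ℤ) ∣ V := Int.Prime.dvd_pow' hp.out h
    exact hVp (by exact_mod_cast h2)
  · push_cast
    rw [hSN, hu]
    push_cast
    ring

end Pool.Agent.Q278.RM
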